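import Pool.Agent.Run7.h947.StepC3

set_option autoImplicit false

namespace Pool.Agent.Results.MP_43150e_al.AlternatingSocle

open Run7.h947 Equiv

/-- Let `m ≥ 33` and let `G` be a transitive permutation group on a finite set `Ω` that is, as an
abstract group, isomorphic to the symmetric group or to the alternating group of degree `m`
(so `G` is an arbitrary faithful transitive permutation representation of `S_m` or `A_m`).
If `G` is spreading then `G` is QI and `|Ω| = m`. -/
theorem result (m : ℕ) (hm : 33 ≤ m) (Ω : Type) [Fintype Ω] [DecidableEq Ω]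
    (G : Subgroup (Perm Ω))
    (hG : Nonempty (G ≃* Perm (Fin m)) ∨ Nonempty (G ≃* alternatingGroup (Fin m)))
    (htr : Transitive G) (hs : Spreading G) : QI G ∧ Fintype.card Ω = m := by
  -- a subgroup `M` of `Perm (Fin m)` isomorphic to `G`
  obtain ⟨M, hM, ⟨e⟩⟩ : ∃ M : Subgroup (Perm (Fin m)), alternatingGroup (Fin m) ≤ M ∧
      Nonempty (M ≃* G) := by
    rcases hG with ⟨⟨e⟩⟩ | ⟨⟨e⟩⟩
    · exact ⟨⊤, le_top, ⟨(Subgroup.topEquiv).trans e.symm⟩⟩
    · exact ⟨alternatingGroup (Fin m), le_rfl, ⟨e.symm⟩⟩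
  have hc : 33 ≤ Fintype.card (Fin m) := by rwa [Fintype.card_fin]
  let ψ : M →* Perm Ω := G.subtype.comp e.toMonoidHom
  have hψ : ψ.range = G := by
    ext g
    constructor
    · rintro ⟨x, rfl⟩
      exact (e x).2
    · intro hg
      refine ⟨e.symm ⟨g, hg⟩, ?_⟩
      show ((e (e.symm ⟨g, hg⟩) : G) : Perm Ω) = g
      rw [e.apply_symm_apply]
  have hinj : Function.Injective ψ := by
    intro x y hxy
    exact e.injective (Subtype.ext hxy)
  have htr' : ∀ ω ω', ∃ g : M, ψ g ω = ω' := by
    intro ω ω'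
    obtain ⟨g, hg, h⟩ := htr ω ω'
    rw [← hψ] at hg
    obtain ⟨x, rfl⟩ := hg
    exact ⟨x, h⟩
  by_cases hne : Nonempty Ω
  · obtain ⟨ω₀⟩ := hne
    have := main hc M hM ψ hinj htr' ω₀ (by rw [hψ]; exact hs)
    rw [hψ, Fintype.card_fin] at this
    exact this
  · exfalso
    rw [not_nonempty_iff] at hne
    have hsub : Subsingleton M := ⟨fun x y => hinj (Subsingleton.elim _ _)⟩
    have : Subsingleton (alternatingGroup (Fin m)) := by
      refine ⟨fun x y => ?_⟩
      have := hsub.elim ⟨x, hM x.2⟩ ⟨y, hM y.2⟩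
      exact Subtype.ext (congrArg (fun t : M => (t : Perm (Fin m))) this)
    have hnt : Nontrivial (alternatingGroup (Fin m)) :=
      alternatingGroup.nontrivial_of_three_le_card
        (by rw [Nat.card_eq_fintype_card, Fintype.card_fin]; omega)
    exact (not_subsingleton_iff_nontrivial.mpr hnt) this

end Pool.Agent.Results.MP_43150e_al.AlternatingSocle
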